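import Mathlib

set_option autoImplicit false
set_option linter.unusedSectionVars false

/-!
# Baum-Connes with commutative coefficients: the structure of counterexamples

Let `G` be a connected Lie group and `X` a locally compact `G`-space. For a locally closed invariant
subset `A` of `X` let `K_n(A) = K_n(C₀(A) ⋊ G)` (reduced crossed product), `T_n(A) = KK^G_n(C₀(S), C₀(A))`,
`S` the symmetric space of `G`, and `μ : T_n(A) → K_n(A)` the assembly map; `n` is in `ℤ / 2`. The
structure `Theory` lists the known facts which we use: exact sequences of closed invariant subsets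
(connected groups are exact), `μ` is natural and injective (Kasparov), both theories are continuous
for decreasing families of closed invariant subsets, and `μ` is surjective for a locally closed orbit
if the stabilizer has finitely many connected components (Chabert, Echterhoff and Nest: the trivial
coefficients for almost connected groups).

(1) If `μ` is not surjective for `X`, then there is a closed invariant subset `Y` which carries an essential
class `α`: the restriction of `α` to `Y` is not in the image of `μ`, the restrictions to all the smaller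
closed invariant subsets are, `μ` is not surjective for ANY nonempty relatively open invariant subset
of `Y`, and every orbit in `Y`, the stabilizer of which has finitely many components, is meagre in `Y`.

(2) If every nonempty closed invariant subset of `X` has a nonempty relatively open invariant subset for
which `μ` is surjective, then `μ` is bijective for `X`.

(3) If `X` is the union of countably many orbits, and their stabilizers have finitely many components,
then `μ` is bijective for `X`; the orbits are not assumed to be locally closed.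
-/

namespace Pool.Agent.Results.MP_aa9b81_an.EssentialCounterexamples

open Set Topology MulAction

/-- `A` is invariant -/
def Inv (G : Type) {X : Type} [Group G] [MulAction G X] (A : Set X) : Prop :=
  ∀ g : G, ∀ x ∈ A, g • x ∈ A

/-- `A` is closed and invariant -/
def ClosedInv (G : Type) {X : Type} [Group G] [TopologicalSpace X] [MulAction G X] (A : Set X) :
    Prop := IsClosed A ∧ Inv G A

/-- the stabilizer of `x` has finitely many connected components -/
def FiniteStab (G : Type) {X : Type} [Group G] [TopologicalSpace G] [MulAction G X] (x : X) : Prop :=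
  Finite (ConnectedComponents ↥(stabilizer G x))

/-- Two theories on the locally closed invariant subsets of the `G`-space `X` (the values on other
sets and pairs of sets do not matter) and the assembly map `μ`. -/
structure Data (X : Type) where
  /-- the groups `KK^G_n(C₀(S), C₀(A))` -/
  T : ZMod 2 → Set X → Type
  /-- the groups `K_n(C₀(A) ⋊ G)` -/
  K : ZMod 2 → Set X → Type
  [gT : ∀ n A, AddCommGroup (T n A)]
  [gK : ∀ n A, AddCommGroup (K n A)]
  /-- the assembly map -/
  μ : ∀ n A, T n A →+ K n A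
  /-- restriction to closed invariant subsets -/
  resT : ∀ n Y Z, T n Y →+ T n Z
  resK : ∀ n Y Z, K n Y →+ K n Z
  /-- extension from open invariant subsets -/
  incT : ∀ n U Y, T n U →+ T n Y
  incK : ∀ n U Y, K n U →+ K n Y
  /-- the boundary maps of the exact sequences -/
  bdT : ∀ n Z U, T n Z →+ T (n + 1) U
  bdK : ∀ n Z U, K n Z →+ K (n + 1) U

attribute [instance] Data.gT Data.gK

/-- `μ` is compatible with the maps -/
structure Natural (G : Type) {X : Type} [Group G] [TopologicalSpace X] [MulAction G X]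
    (θ : Data X) : Prop where
  nres : ∀ n Y Z, ClosedInv G Y → ClosedInv G Z → Z ⊆ Y → ∀ t,
    θ.μ n Z (θ.resT n Y Z t) = θ.resK n Y Z (θ.μ n Y t)
  ninc : ∀ n Y Z, ClosedInv G Y → ClosedInv G Z → Z ⊆ Y → ∀ t,
    θ.μ n Y (θ.incT n (Y \ Z) Y t) = θ.incK n (Y \ Z) Y (θ.μ n (Y \ Z) t)
  nbd : ∀ n Y Z, ClosedInv G Y → ClosedInv G Z → Z ⊆ Y → ∀ t,
    θ.μ (n + 1) (Y \ Z) (θ.bdT n Z (Y \ Z) t) = θ.bdK n Z (Y \ Z) (θ.μ n Z t)

/-- restrictions compose; exact sequences of closed invariant subsets (the parts which are used) -/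
structure Exact (G : Type) {X : Type} [Group G] [TopologicalSpace X] [MulAction G X]
    (θ : Data X) : Prop where
  res_self : ∀ n Y, ClosedInv G Y → ∀ k, θ.resK n Y Y k = k
  res_res : ∀ n Y Z W, ClosedInv G Y → ClosedInv G Z → ClosedInv G W → Z ⊆ Y → W ⊆ Z → ∀ k,
    θ.resK n Z W (θ.resK n Y Z k) = θ.resK n Y W k
  exK : ∀ n Y Z, ClosedInv G Y → ClosedInv G Z → Z ⊆ Y → ∀ k, θ.resK n Y Z k = 0 →
    ∃ u, θ.incK n (Y \ Z) Y u = k
  exT : ∀ n Y Z, ClosedInv G Y → ClosedInv G Z → Z ⊆ Y → ∀ t, θ.bdT n Z (Y \ Z) t = 0 →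
    ∃ s, θ.resT n Y Z s = t
  zero : ∀ n Y Z, ClosedInv G Y → ClosedInv G Z → Z ⊆ Y → ∀ k,
    θ.bdK n Z (Y \ Z) (θ.resK n Y Z k) = 0

/-- continuity for chains of closed invariant subsets: the value on the intersection is the direct
limit (the parts which are used) -/
structure Cont (G : Type) {X : Type} [Group G] [TopologicalSpace X] [MulAction G X]
    (θ : Data X) : Prop where
  contT : ∀ n (c : Set (Set X)), c.Nonempty → IsChain (· ⊆ ·) c → (∀ Z ∈ c, ClosedInv G Z) →
    ∀ t : θ.T n (⋂₀ c), ∃ Z ∈ c, ∃ s, θ.resT n Z (⋂₀ c) s = t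
  contK : ∀ n (c : Set (Set X)), c.Nonempty → IsChain (· ⊆ ·) c → (∀ Z ∈ c, ClosedInv G Z) →
    ∀ Y ∈ c, ∀ k : θ.K n Y, θ.resK n Y (⋂₀ c) k = 0 → ∃ Z ∈ c, Z ⊆ Y ∧ θ.resK n Y Z k = 0

/-- the known facts on `μ` -/
structure Known (G : Type) {X : Type} [Group G] [TopologicalSpace G] [TopologicalSpace X]
    [MulAction G X] (θ : Data X) : Prop where
  empty : ∀ n, Subsingleton (θ.K n ∅)
  /-- `μ` is injective (Kasparov) -/
  inj : ∀ n A, IsLocallyClosed A → Inv G A → Function.Injective (θ.μ n A)
  /-- locally closed orbits, the stabilizers of which have finitely many components -/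
  orb : ∀ x : X, FiniteStab G x → IsLocallyClosed (orbit G x) →
    ∀ n, Function.Surjective (θ.μ n (orbit G x))

/-- The two theories of the `G`-space `X`, the assembly map and the known facts which are used. -/
structure Theory (G X : Type) [Group G] [TopologicalSpace G] [TopologicalSpace X]
    [MulAction G X] extends Data X where
  nat : Natural G toData
  ex : Exact G toData
  cont : Cont G toData
  known : Known G toData

variable {G X : Type} [Group G] [TopologicalSpace G] [TopologicalSpace X] [MulAction G X]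

/-- `U` is a nonempty relatively open invariant subset of `Y` -/
def OpenIn (G : Type) {X : Type} [Group G] [TopologicalSpace X] [MulAction G X] (U Y : Set X) :
    Prop := U.Nonempty ∧ Inv G U ∧ ∃ O : Set X, IsOpen O ∧ U = O ∩ Y

/-- `Y` is closed and invariant and carries the essential class `α`: the restriction of `α` to `Y` is not in
the image of `μ`, but its restrictions to all the smaller closed invariant subsets are. -/
def Essential (θ : Theory G X) (n : ZMod 2) (α : θ.K n univ) (Y : Set X) : Prop :=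
  ClosedInv G Y ∧ θ.resK n univ Y α ∉ range (θ.μ n Y) ∧
    ∀ Z, ClosedInv G Z → Z ⊆ Y → Z ≠ Y → θ.resK n univ Z α ∈ range (θ.μ n Z)

theorem univ_ci : ClosedInv G (univ : Set X) := ⟨isClosed_univ, fun _ _ _ => mem_univ _⟩

theorem sInter_ci {c : Set (Set X)} (h : ∀ Z ∈ c, ClosedInv G Z) : ClosedInv G (⋂₀ c) :=
  ⟨isClosed_sInter fun Z hZ => (h Z hZ).1, fun g x hx Z hZ => (h Z hZ).2 g x (hx Z hZ)⟩

theorem diff_ci {U Y : Set X} (hY : ClosedInv G Y) (hU : OpenIn G U Y) : ClosedInv G (Y \ U) := by
  obtain ⟨-, hi, O, hO, rfl⟩ := hU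
  refine ⟨?_, fun g x hx => ⟨hY.2 g x hx.1, fun h => hx.2 ?_⟩⟩
  · have : Y \ (O ∩ Y) = Y ∩ Oᶜ := by
      ext x
      simp only [mem_sdiff, mem_inter_iff, mem_compl_iff]
      tauto
    rw [this]
    exact hY.1.inter hO.isClosed_compl
  · have := hi g⁻¹ _ h
    rwa [inv_smul_smul] at this

theorem exists_essential (θ : Theory G X) (n : ZMod 2) (α : θ.K n univ)
    (hα : α ∉ range (θ.μ n univ)) : ∃ Y, Essential θ n α Y := by
  have H : ∀ c ⊆ {Z : Set X | ClosedInv G Z ∧ θ.resK n univ Z α ∉ range (θ.μ n Z)},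
      IsChain (· ⊆ ·) c → c.Nonempty →
      ∃ lb ∈ {Z : Set X | ClosedInv G Z ∧ θ.resK n univ Z α ∉ range (θ.μ n Z)}, ∀ s ∈ c,
        lb ⊆ s := by
    intro c hc hch hne
    have hci : ∀ Z ∈ c, ClosedInv G Z := fun Z hZ => (hc hZ).1
    refine ⟨⋂₀ c, ⟨sInter_ci hci, ?_⟩, fun s hs => sInter_subset_of_mem hs⟩
    rintro ⟨t, ht⟩
    obtain ⟨Z, hZ, s, hs⟩ := θ.cont.contT n c hne hch hci t
    have h0 : θ.resK n Z (⋂₀ c) (θ.resK n univ Z α - θ.μ n Z s) = 0 := by
      rw [map_sub, θ.ex.res_res n univ Z (⋂₀ c) univ_ci (hci Z hZ) (sInter_ci hci) (subset_univ _)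
        (sInter_subset_of_mem hZ), ← θ.nat.nres n Z (⋂₀ c) (hci Z hZ) (sInter_ci hci)
        (sInter_subset_of_mem hZ), hs, ht, sub_self]
    obtain ⟨Z', hZ', hsub, h1⟩ := θ.cont.contK n c hne hch hci Z hZ _ h0
    rw [map_sub, θ.ex.res_res n univ Z Z' univ_ci (hci Z hZ) (hci Z' hZ') (subset_univ _) hsub,
      ← θ.nat.nres n Z Z' (hci Z hZ) (hci Z' hZ') hsub, sub_eq_zero] at h1
    exact (hc hZ').2 ⟨_, h1.symm⟩
  obtain ⟨Y, -, hY⟩ := zorn_superset_nonempty _ H univ
    ⟨univ_ci, by rwa [θ.ex.res_self n univ univ_ci]⟩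
  refine ⟨Y, hY.prop.1, hY.prop.2, fun Z hZ hZY hne => ?_⟩
  by_contra hcon
  exact hne (hZY.antisymm (hY.le_of_le ⟨hZ, hcon⟩ hZY))

theorem Essential.nonempty {θ : Theory G X} {n : ZMod 2} {α : θ.K n univ} {Y : Set X}
    (h : Essential θ n α Y) : Y.Nonempty := by
  rw [nonempty_iff_ne_empty]
  rintro rfl
  have := θ.known.empty n
  exact h.2.1 ⟨0, Subsingleton.elim _ _⟩

theorem Essential.bad {θ : Theory G X} {n : ZMod 2} {α : θ.K n univ} {Y : Set X}
    (h : Essential θ n α Y) {U : Set X} (hU : OpenIn G U Y) :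
    ¬ Function.Surjective (θ.μ n U) := by
  intro hs
  obtain ⟨Z, hZd⟩ : ∃ Z, Z = Y \ U := ⟨_, rfl⟩
  have hZ : ClosedInv G Z := by rw [hZd]; exact diff_ci h.1 hU
  have hZY : Z ⊆ Y := by rw [hZd]; exact sdiff_subset
  have hUY : U ⊆ Y := by
    obtain ⟨-, -, O, -, rfl⟩ := hU
    exact inter_subset_right
  have hYZ : Y \ Z = U := by rw [hZd, sdiff_sdiff_cancel_left hUY]
  have hne : Z ≠ Y := by
    intro he
    obtain ⟨x, hx⟩ := hU.1
    have h1 : x ∈ Z := by rw [he]; exact hUY hx
    rw [hZd] at h1
    exact h1.2 hx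
  obtain ⟨β, hβ⟩ := h.2.2 Z hZ hZY hne
  rw [← θ.ex.res_res n univ Y Z univ_ci h.1 hZ (subset_univ _) hZY] at hβ
  have hbd : θ.bdT n Z (Y \ Z) β = 0 := by
    have hlc : IsLocallyClosed (Y \ Z) := by
      rw [sdiff_eq]
      exact h.1.1.isLocallyClosed.inter hZ.1.isOpen_compl.isLocallyClosed
    apply θ.known.inj (n + 1) (Y \ Z) hlc (by rw [hYZ]; exact hU.2.1)
    rw [θ.nat.nbd n Y Z h.1 hZ hZY, hβ, θ.ex.zero n Y Z h.1 hZ hZY, map_zero]
  obtain ⟨β', hβ'⟩ := θ.ex.exT n Y Z h.1 hZ hZY β hbd
  have h0 : θ.resK n Y Z (θ.resK n univ Y α - θ.μ n Y β') = 0 := by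
    rw [map_sub, ← hβ, ← θ.nat.nres n Y Z h.1 hZ hZY, hβ', sub_self]
  obtain ⟨u, hu⟩ := θ.ex.exK n Y Z h.1 hZ hZY _ h0
  rw [← hYZ] at hs
  obtain ⟨v, rfl⟩ := hs u
  rw [← θ.nat.ninc n Y Z h.1 hZ hZY] at hu
  refine h.2.1 ⟨θ.incT n (Y \ Z) Y v + β', ?_⟩
  rw [map_add, hu, sub_add_cancel]

theorem Essential.meagre [SigmaCompactSpace G] [ContinuousSMul G X] [T2Space X]
    {θ : Theory G X} {n : ZMod 2} {α : θ.K n univ} {Y : Set X}
    (h : Essential θ n α Y) {y : X} (hy : y ∈ Y)
    (hfin : FiniteStab G y) :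
    IsMeagre ((Subtype.val : Y → X) ⁻¹' orbit G y) := by
  have hcov : (Subtype.val : Y → X) ⁻¹' orbit G y =
      ⋃ i : ℕ, (Subtype.val : Y → X) ⁻¹' ((fun g : G => g • y) '' compactCovering G i) := by
    rw [← preimage_iUnion, ← image_iUnion, iUnion_compactCovering, image_univ]
    rfl
  rw [hcov]
  refine isMeagre_iUnion fun i => ?_
  have hcl : IsClosed ((Subtype.val : Y → X) ⁻¹'
      ((fun g : G => g • y) '' compactCovering G i)) :=
    (((isCompact_compactCovering G i).image (continuous_id.smul continuous_const)).isClosed).preimage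
      continuous_subtype_val
  refine IsNowhereDense.isMeagre (hcl.isNowhereDense_iff.2 ?_)
  by_contra hne
  obtain ⟨x, hx⟩ := nonempty_iff_ne_empty.2 hne
  obtain ⟨O, hO, hOe⟩ := isOpen_induced_iff.1 (isOpen_interior (s := (Subtype.val : Y → X) ⁻¹'
    ((fun g : G => g • y) '' compactCovering G i)))
  have hxO : (x : X) ∈ O := by
    have : x ∈ (Subtype.val : Y → X) ⁻¹' O := by rw [hOe]; exact hx
    exact this
  have hsub : ∀ z ∈ Y, z ∈ O → z ∈ orbit G y := by
    intro z hzY hzO
    have h1 : (⟨z, hzY⟩ : Y) ∈ (Subtype.val : Y → X) ⁻¹' O := hzO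
    rw [hOe] at h1
    obtain ⟨g, -, hg⟩ := interior_subset h1
    exact ⟨g, hg⟩
  have hopen : IsOpen {z : X | ∃ g : G, g • z ∈ O} := by
    have : {z : X | ∃ g : G, g • z ∈ O} = ⋃ g : G, (fun z => g • z) ⁻¹' O := by
      ext z
      simp
    rw [this]
    exact isOpen_iUnion fun g => hO.preimage (continuous_const_smul g)
  have heq : orbit G y = {z : X | ∃ g : G, g • z ∈ O} ∩ Y := by
    ext z
    constructor
    · intro hz
      refine ⟨?_, ?_⟩
      · have h3 : (x : X) ∈ orbit G z := by
          rw [orbit_eq_iff.2 hz]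
          exact hsub x x.2 hxO
        obtain ⟨g, hg⟩ := h3
        have hg' : g • z = (x : X) := hg
        exact ⟨g, by rw [hg']; exact hxO⟩
      · obtain ⟨g, rfl⟩ := hz
        exact h.1.2 g y hy
    · rintro ⟨⟨g, hg⟩, hzY⟩
      have h1 := hsub _ (h.1.2 g z hzY) hg
      rwa [← orbit_eq_iff, orbit_smul, orbit_eq_iff] at h1
  have hoin : OpenIn G (orbit G y) Y := by
    refine ⟨nonempty_orbit y, fun g z hz => ?_, _, hopen, heq⟩
    exact (mem_orbit_symm.1 (by
      rw [mem_orbit_symm]
      obtain ⟨g', rfl⟩ := hz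
      exact ⟨g * g', mul_smul _ _ _⟩))
  refine h.bad hoin (θ.known.orb y hfin ?_ n)
  rw [heq]
  exact hopen.isLocallyClosed.inter h.1.1.isLocallyClosed

/-- `Y` is nonempty, `μ` is not surjective for any nonempty relatively open invariant subset of `Y`, and the
orbits in `Y`, the stabilizers of which have finitely many components, are meagre in `Y` -/
def NoGoodPart (θ : Theory G X) (n : ZMod 2) (Y : Set X) : Prop :=
  Y.Nonempty ∧ (∀ U, OpenIn G U Y → ¬ Function.Surjective (θ.μ n U)) ∧
    ∀ y ∈ Y, FiniteStab G y → IsMeagre ((Subtype.val : Y → X) ⁻¹' orbit G y)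

/-- **The structure of counterexamples.** Let `G` be a `σ`-compact topological group which acts
continuously on the locally compact Hausdorff space `X`, and let `θ` be the theory of the assembly maps.
(1) If the class `α` of `X` is not in the image of `μ`, then there is a nonempty closed invariant subset `Y`
for which `α` is essential; and for every such `Y`, the assembly map is not surjective for any nonempty
relatively open invariant subset of `Y`, and every orbit in `Y`, the stabilizer of which has finitely many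
components, is meagre in `Y`.
(2) If every nonempty closed invariant subset has a nonempty relatively open invariant subset for which
`μ` is surjective, then `μ` is bijective for `X`.
(3) If `X` is the union of countably many orbits, and the stabilizers of the points of `X` have finitely many
components, then `μ` is bijective for `X`. -/
theorem result (G X : Type) [Group G] [TopologicalSpace G] [SigmaCompactSpace G]
    [TopologicalSpace X] [LocallyCompactSpace X] [T2Space X] [MulAction G X] [ContinuousSMul G X]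
    (θ : Theory G X) (n : ZMod 2) :
    (∀ α : θ.K n univ, α ∉ range (θ.μ n univ) → (∃ Y, Essential θ n α Y) ∧
      ∀ Y, Essential θ n α Y → NoGoodPart θ n Y) ∧
    ((∀ Y : Set X, ClosedInv G Y → Y.Nonempty →
      ∃ U, OpenIn G U Y ∧ Function.Surjective (θ.μ n U)) → Function.Bijective (θ.μ n univ)) ∧
    ((∃ D : Set X, D.Countable ∧ ⋃ x ∈ D, orbit G x = univ) →
      (∀ x : X, FiniteStab G x) → Function.Bijective (θ.μ n univ)) := by
  have hinj : Function.Injective (θ.μ n univ) :=
    θ.known.inj n univ isOpen_univ.isLocallyClosed fun _ _ _ => mem_univ _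
  have h1 : ∀ α : θ.K n univ, ∀ Y, Essential θ n α Y → NoGoodPart θ n Y := fun α Y hY =>
    ⟨hY.nonempty, fun U hU => hY.bad hU, fun y hy hf => hY.meagre hy hf⟩
  refine ⟨fun α hα => ⟨exists_essential θ n α hα, h1 α⟩, fun h => ⟨hinj, fun α => ?_⟩,
    fun hD hst => ⟨hinj, fun α => ?_⟩⟩
  · by_contra hcon
    obtain ⟨Y, hY⟩ := exists_essential θ n α hcon
    obtain ⟨U, hU, hs⟩ := h Y hY.1 hY.nonempty
    exact hY.bad hU hs
  · by_contra hcon
    obtain ⟨Y, hY⟩ := exists_essential θ n α hcon
    obtain ⟨D, hDc, hD⟩ := hD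
    have hlc : LocallyCompactSpace Y := hY.1.1.isClosedEmbedding_subtypeVal.locallyCompactSpace
    have hmea : IsMeagre (univ : Set Y) := by
      have h2 : (univ : Set Y) = ⋃ x ∈ D, (Subtype.val : Y → X) ⁻¹' orbit G x := by
        rw [← preimage_iUnion₂, hD, preimage_univ]
      rw [h2]
      refine isMeagre_biUnion hDc fun x _ => ?_
      by_cases hx : x ∈ Y
      · exact hY.meagre hx (hst x)
      · have h3 : (Subtype.val : Y → X) ⁻¹' orbit G x = ∅ := by
          rw [eq_empty_iff_forall_notMem]
          rintro y ⟨g, hg⟩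
          apply hx
          have h4 := hY.1.2 g⁻¹ _ y.2
          have h5 : g • x = (y : X) := hg
          rwa [← h5, inv_smul_smul] at h4
        rw [h3]
        exact IsMeagre.empty
    have : Nonempty Y := hY.nonempty.to_subtype
    exact not_isMeagre_of_isOpen isOpen_univ univ_nonempty hmea

end Pool.Agent.Results.MP_aa9b81_an.EssentialCounterexamples
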