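import Mathlib

/-!
# Baum-Connes with commutative coefficients: finitely generated cokernels are enough

Let `C(G, X)` be the cokernel of the assembly map `KK_G(S, X) → K_G(X)` (both degrees together). By Kasparov the assembly map is
split injective, so it is an isomorphism if and only if `C(G, X) = 0`. `BCTheory` collects the known facts used.

* `approx`: `C₀(X)` is the inductive limit of the algebras `C₀(Y)` of second countable `G`-spaces `Y`, and both sides of the assembly
  map commute with inductive limits.
* `copies_iso`: both sides are additive for countable disjoint unions, so `C(G, X ⊔ X ⊔ ...)` is the direct sum of countably many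
  copies of `C(G, X)`.
* `cpt_iso`: for the one-point compactification `X⁺` (compact and metrizable if `X` is second countable) the extension
  `0 → C₀(X) → C(X⁺) → ℂ → 0` is split by the constants and gives exact sequences on both sides (connected Lie groups are
  exact); the assembly map for the point is an isomorphism, so `C(G, X⁺) = C(G, X)`.
* `ind_iso` (Chabert-Echterhoff, Oyono-Oyono): for a closed subgroup `H` of `G`, `C(H, X) = C(G, G ×_H X)`.
* `embed`: a connected closed linear group is a closed subgroup of `SL(n, ℝ)` for all large `n`.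
-/

set_option autoImplicit false

namespace Pool.Agent.Results.MP_aa9b81_an.FiniteGeneration

/-- The assembly maps of the connected Lie groups with commutative coefficients, and the known facts that are used. -/
structure BCTheory where
  /-- the connected Lie groups -/
  Gp : Type
  /-- the locally compact `G`-spaces -/
  Sp : Gp → Type
  /-- `G` is isomorphic to a closed subgroup of some `GL(m, ℝ)` -/
  Linear : Gp → Prop
  /-- the group `SL(n, ℝ)` -/
  SL : ℕ → Gp
  /-- `H` is isomorphic to a closed subgroup of `G` -/
  Closed : Gp → Gp → Prop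
  /-- `X` is second countable -/
  SecondCountable : ∀ {G : Gp}, Sp G → Prop
  /-- `X` is compact and metrizable -/
  CompactMetrizable : ∀ {G : Gp}, Sp G → Prop
  /-- the disjoint union of countably many copies of `X` -/
  copies : ∀ {G : Gp}, Sp G → Sp G
  /-- the one-point compactification -/
  cpt : ∀ {G : Gp}, Sp G → Sp G
  /-- the cokernel of the assembly map -/
  C : ∀ G : Gp, Sp G → Type
  [grp : ∀ G X, AddCommGroup (C G X)]
  approx : ∀ G : Gp, (∀ Y : Sp G, SecondCountable Y → Subsingleton (C G Y)) → ∀ X : Sp G, Subsingleton (C G X)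
  copies_sc : ∀ {G : Gp} (X : Sp G), SecondCountable X → SecondCountable (copies X)
  cpt_cm : ∀ {G : Gp} (X : Sp G), SecondCountable X → CompactMetrizable (cpt X)
  copies_iso : ∀ {G : Gp} (X : Sp G), SecondCountable X → Nonempty (C G (copies X) ≃+ (ℕ →₀ C G X))
  cpt_iso : ∀ {G : Gp} (X : Sp G), SecondCountable X → Nonempty (C G (cpt X) ≃+ C G X)
  ind_iso : ∀ {H G : Gp}, Closed H G → ∀ X : Sp H, ∃ Y : Sp G, Nonempty (C H X ≃+ C G Y)
  embed : ∀ G : Gp, Linear G → ∃ m, ∀ n, m ≤ n → Closed G (SL n)
  sl_linear : ∀ n, Linear (SL n)

attribute [instance] BCTheory.grp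

variable (S : BCTheory)

/-- the assembly map is an isomorphism for all `G`-spaces (the cokernels are zero) -/
def Iso (G : S.Gp) : Prop := ∀ X : S.Sp G, Subsingleton (S.C G X)

/-- the cokernels are finitely generated for compact metrizable `G`-spaces -/
def FinGen (G : S.Gp) : Prop := ∀ X : S.Sp G, S.CompactMetrizable X → AddGroup.FG (S.C G X)

lemma subsingleton_of_fg (A : Type) [AddCommGroup A] (h : AddGroup.FG (ℕ →₀ A)) : Subsingleton A := by
  classical
  obtain ⟨T, hT⟩ := (AddGroup.fg_def.1 h : (⊤ : AddSubgroup (ℕ →₀ A)).FG)
  obtain ⟨n, hn⟩ := Infinite.exists_notMem_finset (T.biUnion fun f => f.support)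
  have h1 : ∀ f : ℕ →₀ A, f n = 0 := by
    intro f
    have hf : f ∈ AddSubgroup.closure (T : Set (ℕ →₀ A)) := by rw [hT]; trivial
    induction hf using AddSubgroup.closure_induction with
    | mem x hx =>
      by_contra h2
      exact hn (Finset.mem_biUnion.2 ⟨x, hx, Finsupp.mem_support_iff.2 h2⟩)
    | zero => rfl
    | add x y _ _ hx hy => simp [hx, hy]
    | neg x _ hx => simp [hx]
  refine ⟨fun a b => ?_⟩
  have ha := h1 (Finsupp.single n a)
  have hb := h1 (Finsupp.single n b)
  simp at ha hb
  rw [ha, hb]

variable {S}

lemma iso_iff (G : S.Gp) : Iso S G ↔ FinGen S G := by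
  constructor
  · intro h X _
    have := h X
    exact AddGroup.fg_of_finite
  · intro h X
    refine S.approx G (fun Y hY => ?_) X
    obtain ⟨e⟩ := S.copies_iso Y hY
    have hs := S.copies_sc Y hY
    obtain ⟨f⟩ := S.cpt_iso (S.copies Y) hs
    have h1 : AddGroup.FG (S.C G (S.cpt (S.copies Y))) := h _ (S.cpt_cm _ hs)
    have h2 : AddGroup.FG (ℕ →₀ S.C G Y) :=
      AddGroup.fg_of_surjective (f := (f.trans e).toAddMonoidHom) (f.trans e).surjective
    exact subsingleton_of_fg _ h2

variable (S)

/-- First part: for every connected Lie group `G` the assembly map is an isomorphism for all locally compact `G`-spaces if and only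
if its cokernel is finitely generated for all compact metrizable ones. Second part: Q1 is equivalent to the finite generation
for all connected Lie groups and compact metrizable spaces. Third part: the assembly maps of all connected closed linear groups and all
spaces are isomorphisms if and only if for arbitrarily large `n` the cokernels are finitely generated for the compact metrizable
`SL(n, ℝ)`-spaces. -/
theorem result :
    (∀ G : S.Gp, Iso S G ↔ FinGen S G) ∧
    ((∀ G : S.Gp, Iso S G) ↔ ∀ G : S.Gp, FinGen S G) ∧
    ((∀ G : S.Gp, S.Linear G → Iso S G) ↔ ∀ N, ∃ n, N ≤ n ∧ FinGen S (S.SL n)) := by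
  refine ⟨iso_iff, forall_congr' iso_iff, ?_, ?_⟩
  · intro h N
    exact ⟨N, le_rfl, (iso_iff _).1 (h _ (S.sl_linear N))⟩
  · intro h G hG X
    obtain ⟨m, hm⟩ := S.embed G hG
    obtain ⟨n, hn, h1⟩ := h m
    obtain ⟨Y, ⟨e⟩⟩ := S.ind_iso (hm n hn) X
    have := (iso_iff _).2 h1 Y
    exact e.toEquiv.subsingleton

end Pool.Agent.Results.MP_aa9b81_an.FiniteGeneration
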