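import Mathlib

/-!
# Baum-Connes with commutative coefficients: one universal space

For a connected Lie group `G` let `U` be the countable power of the unit ball of `L^∞(G)` with the weak* topology and the
translations. It is compact, metrizable, and `G`-equivariantly contractible (by `u ↦ t u`), so that the assembly map for `U` is
the one for the point, an isomorphism. Every compact metrizable `G`-space is a closed invariant subset of `U` (a function `f` on
`X` gives the map which sends `x` to the function `g ↦ f (g⁻¹ x)`). `C G n X` is the cokernel of the assembly map in degree `n`; as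
the assembly map is split injective (Kasparov) and connected Lie groups are exact, the cokernels have exact sequences; they are
continuous for decreasing families of closed invariant sets.
-/

set_option autoImplicit false

namespace Pool.Agent.Results.MP_aa9b81_an.UniversalSpace

universe u

/-- The cokernels of the assembly maps of the connected Lie groups, and the known facts that are used. -/
structure BCTheory where
  /-- the connected Lie groups -/
  Gp : Type u
  /-- the locally compact `G`-spaces -/
  Sp : Gp → Type u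
  /-- `X` is second countable -/
  SecondCountable : ∀ {G : Gp}, Sp G → Prop
  /-- `X` is compact and metrizable -/
  CompactMetrizable : ∀ {G : Gp}, Sp G → Prop
  /-- the closed invariant subsets of `X` -/
  CI : ∀ {G : Gp}, Sp G → Type
  /-- the closed invariant subset as a `G`-space -/
  sp : ∀ {G : Gp} {X : Sp G}, CI X → Sp G
  /-- its complement as a `G`-space -/
  co : ∀ {G : Gp} {X : Sp G}, CI X → Sp G
  /-- `Dec Z Y`: the sequence `Z` of closed invariant subsets is decreasing with the intersection `Y` -/
  Dec : ∀ {G : Gp} {X : Sp G}, (ℕ → CI X) → CI X → Prop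
  dec_const : ∀ {G : Gp} {X : Sp G} (Y : CI X), Dec (fun _ => Y) Y
  /-- the spaces are equivariantly homeomorphic -/
  Homeo : ∀ {G : Gp}, Sp G → Sp G → Prop
  /-- the one-point compactification -/
  cpt : ∀ {G : Gp}, Sp G → Sp G
  /-- `X × ℝ`, trivial action on `ℝ` -/
  line : ∀ {G : Gp}, Sp G → Sp G
  /-- the universal space -/
  U : ∀ G : Gp, Sp G
  /-- the cokernel of the assembly map in degree `n` -/
  C : ∀ G : Gp, ZMod 2 → Sp G → Type
  [grp : ∀ G n X, AddCommGroup (C G n X)]
  homeo_iso : ∀ {G : Gp} {X Y : Sp G}, Homeo X Y → ∀ n, Nonempty (C G n X ≃+ C G n Y)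
  approx : ∀ {G : Gp} (n : ZMod 2), (∀ Y : Sp G, SecondCountable Y → Subsingleton (C G n Y)) →
    ∀ X : Sp G, Subsingleton (C G n X)
  cpt_cm : ∀ {G : Gp} (X : Sp G), SecondCountable X → CompactMetrizable (cpt X)
  cpt_iso : ∀ {G : Gp} (X : Sp G), SecondCountable X → ∀ n, Nonempty (C G n (cpt X) ≃+ C G n X)
  line_sc : ∀ {G : Gp} (X : Sp G), SecondCountable X → SecondCountable (line X)
  line_iso : ∀ {G : Gp} (X : Sp G) (n : ZMod 2), Nonempty (C G n (line X) ≃+ C G (n + 1) X)
  U_cm : ∀ G, CompactMetrizable (U G)
  U_zero : ∀ G n, Subsingleton (C G n (U G))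
  embed : ∀ {G : Gp} (X : Sp G), CompactMetrizable X → ∃ Y : CI (U G), Homeo X (sp Y)
  /-- restriction, extension and boundary map of the exact sequence of a closed invariant subset -/
  res : ∀ {G : Gp} {X : Sp G} (Y : CI X) (n : ZMod 2), C G n X →+ C G n (sp Y)
  bd : ∀ {G : Gp} {X : Sp G} (Y : CI X) (n : ZMod 2), C G n (sp Y) →+ C G (n + 1) (co Y)
  inc : ∀ {G : Gp} {X : Sp G} (Y : CI X) (n : ZMod 2), C G n (co Y) →+ C G n X
  exact_sp : ∀ {G : Gp} {X : Sp G} (Y : CI X) (n : ZMod 2) (a : C G n (sp Y)), bd Y n a = 0 → ∃ b, res Y n b = a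
  exact_co : ∀ {G : Gp} {X : Sp G} (Y : CI X) (n : ZMod 2) (a : C G (n + 1) (co Y)), inc Y (n + 1) a = 0 →
    ∃ b, bd Y n b = a
  /-- the restriction from `Z` to `Y`, for `Y` contained in `Z` -/
  resTo : ∀ {G : Gp} {X : Sp G} (Z Y : CI X) (n : ZMod 2), C G n (sp Z) →+ C G n (sp Y)
  /-- continuity for decreasing sequences in compact metrizable spaces (a part of it) -/
  cont : ∀ {G : Gp} {X : Sp G} (Z : ℕ → CI X) (Y : CI X), CompactMetrizable X → Dec Z Y →
    ∀ (n : ZMod 2) (a : C G n (sp Y)), ∃ (k : ℕ) (b : C G n (sp (Z k))), resTo (Z k) Y n b = a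

attribute [instance] BCTheory.grp

variable (S : BCTheory.{u})

/-- the assembly maps of `G` are isomorphisms for all spaces, in both degrees -/
def Iso (G : S.Gp) : Prop := ∀ (n : ZMod 2) (X : S.Sp G), Subsingleton (S.C G n X)

variable {S}

lemma all_of_closed {G : S.Gp} (n : ZMod 2) (h : ∀ Y : S.CI (S.U G), Subsingleton (S.C G n (S.sp Y))) :
    ∀ X : S.Sp G, Subsingleton (S.C G n X) := by
  refine S.approx n fun X hX => ?_
  obtain ⟨Y, hY⟩ := S.embed (S.cpt X) (S.cpt_cm X hX)
  obtain ⟨e⟩ := S.homeo_iso hY n
  obtain ⟨f⟩ := S.cpt_iso X hX n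
  have := h Y
  exact (f.symm.trans e).toEquiv.subsingleton

lemma shift {G : S.Gp} (n : ZMod 2) (h : ∀ X : S.Sp G, Subsingleton (S.C G n X)) (X : S.Sp G) :
    Subsingleton (S.C G (n + 1) X) := by
  obtain ⟨e⟩ := S.line_iso X n
  have := h (S.line X)
  exact e.symm.toEquiv.subsingleton

lemma iso_of {G : S.Gp} (n : ZMod 2) (h : ∀ Y : S.CI (S.U G), Subsingleton (S.C G n (S.sp Y))) : Iso S G := by
  have h0 := all_of_closed n h
  have h1 := shift n h0
  intro m X
  have h3 : ∀ n m : ZMod 2, m = n ∨ m = n + 1 := by decide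
  have h2 : m = n ∨ m = n + 1 := h3 n m
  rcases h2 with rfl | rfl
  · exact h0 X
  · exact h1 X

lemma closed_of_open {G : S.Gp} (n : ZMod 2) (h : ∀ Y : S.CI (S.U G), Subsingleton (S.C G (n + 1) (S.co Y)))
    (Y : S.CI (S.U G)) : Subsingleton (S.C G n (S.sp Y)) := by
  refine subsingleton_of_forall_eq 0 fun a => ?_
  have h1 := h Y
  obtain ⟨b, hb⟩ := S.exact_sp Y n a (Subsingleton.elim _ _)
  have h2 := S.U_zero G n
  rw [← hb, Subsingleton.elim b 0, map_zero]

variable (S)

/-- For every connected Lie group `G` the following are equivalent: the assembly maps are isomorphisms for all locally compact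
`G`-spaces in both degrees; they are for all open invariant subsets of the one compact metrizable space `U`, in degree `0`; for all
closed invariant subsets of `U`, in degree `0`; every closed invariant subset of `U` is the intersection of a decreasing
sequence of closed invariant subsets for which the assembly map is an isomorphism in degree `0`. For all closed invariant `Y` in `U` the boundary map
from the cokernel for `Y` in degree `n` to the one for the complement in degree `n + 1` is an isomorphism. -/
theorem result (G : S.Gp) :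
    List.TFAE [
      Iso S G,
      ∀ Y : S.CI (S.U G), Subsingleton (S.C G 0 (S.co Y)),
      ∀ Y : S.CI (S.U G), Subsingleton (S.C G 0 (S.sp Y)),
      ∀ Y : S.CI (S.U G), ∃ Z : ℕ → S.CI (S.U G), S.Dec Z Y ∧ ∀ k, Subsingleton (S.C G 0 (S.sp (Z k)))] ∧
    ∀ (Y : S.CI (S.U G)) (n : ZMod 2), Function.Bijective (S.bd Y n) := by
  constructor
  · tfae_have 1 → 2 := fun h Y => h 0 _
    tfae_have 2 → 1 := by
      intro h
      refine iso_of 1 (closed_of_open 1 ?_)
      have h1 : (1 : ZMod 2) + 1 = 0 := by decide
      rw [h1]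
      exact h
    tfae_have 1 → 3 := fun h Y => h 0 _
    tfae_have 3 → 1 := iso_of 0
    tfae_have 4 → 3 := by
      intro h Y
      refine subsingleton_of_forall_eq 0 fun a => ?_
      obtain ⟨Z, hZ, h1⟩ := h Y
      obtain ⟨k, b, hb⟩ := S.cont Z Y (S.U_cm G) hZ 0 a
      have := h1 k
      rw [← hb, Subsingleton.elim b 0, map_zero]
    tfae_have 1 → 4 := fun h Y => ⟨fun _ => Y, S.dec_const Y, fun _ => h 0 _⟩
    tfae_finish
  · intro Y n
    have h2 := S.U_zero G n
    have h3 := S.U_zero G (n + 1)
    refine ⟨?_, fun a => S.exact_co Y n a (Subsingleton.elim _ _)⟩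
    rw [injective_iff_map_eq_zero]
    intro a ha
    obtain ⟨b, hb⟩ := S.exact_sp Y n a ha
    rw [← hb, Subsingleton.elim b 0, map_zero]

end Pool.Agent.Results.MP_aa9b81_an.UniversalSpace
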